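import Pool.Agent.Lib.MP_38dfb6_an.NB.SpecW
import Pool.Agent.Lib.MP_38dfb6_an.NB.LAM
import Pool.Agent.Lib.MP_38dfb6_an.NB.UNQ
import Pool.Agent.Lib.MP_38dfb6_an.NB.CHN
import Pool.Agent.Lib.MP_38dfb6_an.NB.PRD
import Pool.Agent.Lib.MP_38dfb6_an.NB.CLS
import Pool.Agent.Lib.MP_38dfb6_an.NB.CNT
import Pool.Agent.Lib.MP_38dfb6_an.NB.GEN
import Pool.Agent.Lib.MP_38dfb6_an.NB.WCG
import Pool.Agent.Lib.MP_38dfb6_an.NB.HIL
import Pool.Agent.Lib.MP_38dfb6_an.NB.LIM
import Pool.Agent.Lib.MP_38dfb6_an.NB.BAS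
import Pool.Agent.Lib.MP_38dfb6_an.NB.LOW
import Pool.Agent.Lib.MP_38dfb6_an.NB.CLO
import Pool.Agent.Lib.MP_38dfb6_an.NB.KIL
import Pool.Agent.Lib.MP_38dfb6_an.NB.TST
import Pool.Agent.Lib.MP_38dfb6_an.NB.UPP
import Pool.Agent.Lib.MP_38dfb6_an.NB.CRD
import Pool.Agent.Lib.MP_38dfb6_an.NB.NNG
import Pool.Agent.Lib.MP_38dfb6_an.NB.WPH
import Pool.Agent.Lib.MP_38dfb6_an.NB.WGN
import Pool.Agent.Lib.MP_38dfb6_an.NB.WCR
import Pool.Agent.Lib.MP_38dfb6_an.NB.WLM
import Pool.Agent.Lib.MP_38dfb6_an.NB.WBS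
import Pool.Agent.Lib.MP_38dfb6_an.NB.WLO
import Pool.Agent.Lib.MP_38dfb6_an.NB.WTS
import Pool.Agent.Lib.MP_38dfb6_an.NB.WUP
import Pool.Agent.Lib.MP_38dfb6_an.NB.WNU
import Pool.Agent.Lib.MP_38dfb6_an.NB.WFN

/-!
# All best characteristics of M-bases of weakly compactly generated spaces and of their superspaces

Let `Λ` be a well-order of type `ω₁`, and for every `δ` let `L δ : ℕ → Λ` be an enumeration of the
elements below `δ`.  A node is a pair `(D, a)` of finite sequences in `Λ`.  Let the path of `(D, a)`,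
`D = (δ_1, ..., δ_m)`, consist of the nodes `((δ_1, ..., δ_j), initial parts of L δ_(j+1))`, `j < m`, and of the
nodes `(D, initial parts of a)`.  This is a tree of height `ω²`, the union of countably many antichains.
`E` is the closed linear span, in the space of all bounded functions on the set of paths, of the functions
`λ^m [the path contains s]`, `s` a node, `0 < λ ≤ 1` (and of the same functions on the set of paths with `m ≤ N`).

*Upper bound.*  Let `(x_i, f_i)` be an M-basis of a space `X` which contains `E`.  A closing-off argument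
gives `δ_1 < ... < δ_n` such that for every `φ` in the span of the `f_i` and every `k < n` there is a node
`s_k = ((δ_1, ..., δ_k), initial part of L δ_(k+1))` with `φ (χ_(s_k)) = 0`.  With `c_k = ((δ_1, ..., δ_k), ())` the path order is
`c_0 ≤ s_0 < c_1 ≤ s_1 < ... < c_n`.  A combination `g` of the `χ_(c_k)` has norm `B_n = 1 + 2 (λ + ... + λ^n)`, and `g - 2 ∑ λ^(-k) χ_(s_k)` has
norm at most `1`, so `|φ g| ≤ ‖φ‖`.

*Lower bound.*  The `χ_s` form an M-basis of `E`, and its characteristic is `1 / sup B_n`.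
-/

set_option autoImplicit false

namespace Pool.Agent.Results.MP_38dfb6_an.AllCharacteristics

open Pool.Agent.Lib.MP38dfb6

universe u v

/-- `E` is the closed linear span of at most `ℵ₁` vectors. -/
def GenBy (𝕜 : Type) [RCLike 𝕜] (E : Type) [NormedAddCommGroup E] [NormedSpace 𝕜 E] : Prop :=
  ∃ G : Set E, Cardinal.mk G ≤ Cardinal.aleph 1 ∧ (Submodule.span 𝕜 G).topologicalClosure = ⊤

/-- The M-bases of `E` have characteristic at most `r`, and this value is attained; and for every bounded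
linear map `J` from `E` to a normed space `X` with `a ‖e‖ ≤ ‖J e‖` for all `e` (`a > 0`) the M-bases of `X` have
characteristic at most `r ‖J‖ / a`. -/
def Best (𝕜 : Type) [RCLike 𝕜] (E : Type) [NormedAddCommGroup E] [NormedSpace 𝕜 E] (r : ℝ) : Prop :=
  (∃ (ι : Type) (x : ι → E) (f : ι → (E →L[𝕜] 𝕜)), MBasis 𝕜 E x f ∧ charac 𝕜 (cspan 𝕜 f) = r) ∧
  (∀ (ι : Type v) (x : ι → E) (f : ι → (E →L[𝕜] 𝕜)), MBasis 𝕜 E x f → charac 𝕜 (cspan 𝕜 f) ≤ r) ∧
  ∀ (X : Type u) (_ : NormedAddCommGroup X) (_ : NormedSpace 𝕜 X) (J : E →L[𝕜] X) (a : ℝ),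
    0 < a → (∀ e, a * ‖e‖ ≤ ‖J e‖) →
    ∀ (ι : Type v) (x : ι → X) (f : ι → (X →L[𝕜] 𝕜)), MBasis 𝕜 X x f →
      charac 𝕜 (cspan 𝕜 f) ≤ r * (‖J‖ / a)

/-- Let `𝕜` be `ℝ` or `ℂ`.  For every `r` in `[0, 1]` there is a Hilbert generated (and weakly compactly generated) Banach
space, the closed linear span of at most `ℵ₁` vectors, such that the best characteristic of its M-bases (in the sense of
`Best`) is `r`. -/
theorem result (𝕜 : Type) [RCLike 𝕜] (r : ℝ) (h0 : 0 ≤ r) (h1 : r ≤ 1) :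
    ∃ (E : Type) (_ : NormedAddCommGroup E) (_ : NormedSpace 𝕜 E) (_ : CompleteSpace E),
      WCG 𝕜 E ∧ HG 𝕜 E ∧ GenBy 𝕜 E ∧ Best.{u, v} 𝕜 E r := by
  have hW : GoalW.{u, v} :=
    specWFN specLAM (specWGN specWPH specGEN (specWCG (specCNT (specCLS specUNQ)) specGEN)
        (specHIL specUNQ specGEN))
      (specWCR (specWGN specWPH specGEN (specWCG (specCNT (specCLS specUNQ)) specGEN)
        (specHIL specUNQ specGEN)))
      (specWBS specPRD (specWGN specWPH specGEN (specWCG (specCNT (specCLS specUNQ)) specGEN)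
        (specHIL specUNQ specGEN)) specWLM)
      (specWLO specWLM)
      (specWUP (specKIL (specCNT (specCLS specUNQ)) specCLO) specWPH (specWTS specCHN))
      (specWUP (specKIL (specCNT (specCLS specUNQ)) specCLO) specWPH (specWTS specCHN))
      (specWUP (specKIL (specCNT (specCLS specUNQ)) specCLO) specWPH (specWTS specCHN))
      specNNG specWNU
  exact hW 𝕜 r h0 h1

end Pool.Agent.Results.MP_38dfb6_an.AllCharacteristics
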