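import Pool.Agent.Lib.MP_38dfb6_an.HS.THE
import Pool.Agent.Lib.MP_38dfb6_an.HS.CHA
import Pool.Agent.Lib.MP_38dfb6_an.HS.PRJ
import Pool.Agent.Lib.MP_38dfb6_an.HS.BLK
import Pool.Agent.Lib.MP_38dfb6_an.HS.DEC
import Pool.Agent.Lib.MP_38dfb6_an.HS.GLU
import Pool.Agent.Lib.MP_38dfb6_an.HS.MRK
import Pool.Agent.Lib.MP_38dfb6_an.HS.BSE
import Pool.Agent.Lib.MP_38dfb6_an.HS.IND
import Pool.Agent.Lib.MP_38dfb6_an.HS.SUB
import Pool.Agent.Lib.MP_38dfb6_an.HS.WLP
import Pool.Agent.Lib.MP_38dfb6_an.HS.WCY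
import Pool.Agent.Lib.MP_38dfb6_an.HS.WDN
import Pool.Agent.Lib.MP_38dfb6_an.HS.WMB
import Pool.Agent.Lib.MP_38dfb6_an.HS.WCS
import Pool.Agent.Lib.MP_38dfb6_an.HS.CSW
import Pool.Agent.Lib.MP_38dfb6_an.HS.UP1
import Pool.Agent.Lib.MP_38dfb6_an.HS.COR
import Pool.Agent.Lib.MP_38dfb6_an.HS.QCL
import Pool.Agent.Lib.MP_38dfb6_an.HS.QMB
import Pool.Agent.Lib.MP_38dfb6_an.HS.QSW
import Pool.Agent.Lib.MP_38dfb6_an.HS.QDN
import Pool.Agent.Lib.MP_38dfb6_an.HS.QCH
import Pool.Agent.Lib.MP_38dfb6_an.HS.QHG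
import Pool.Agent.Lib.MP_38dfb6_an.HS.QHW
import Pool.Agent.Lib.MP_38dfb6_an.HS.QTR
import Pool.Agent.Lib.MP_38dfb6_an.HS.QSB
import Pool.Agent.Lib.MP_38dfb6_an.HS.QIM

/-!
# Norming M-bases pass to closed subspaces

Let `(x_i, f_i)` be an M-basis of a Banach space `X` with characteristic `r > 0`, such that every functional
vanishes at all but countably many `x_i` (this is automatic if `X` is weakly compactly generated).

*Good sets.*  For a closed subspace `E` there is a map `Θ` from the finite sets of indices to the countable sets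
of indices, such that for every set `S` of indices which is closed under `Θ`: the span of the `f_i`, `i ∈ S`, is
`r`-norming on `X_S = [x_i]_(i ∈ S)` (so there is a projection `P_S` onto `X_S` with kernel
`[x_i]_(i ∉ S)`, of norm at most `1/r`), and every `v ∈ X_S \ E` is separated from `E` by a functional which vanishes
at the `x_i`, `i ∉ S`.  So `P_S E ⊆ E`.

*Induction.*  By induction on the number of indices: the indices are the union of a well-ordered continuous
chain of sets closed under `Θ` of smaller cardinality, and `E` is the closed linear span of its intersections with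
the blocks `[x_i]_(i ∈ S' \ S)`, `S ⊆ S'` consecutive.  These have M-bases, with functionals in the span of the
`f_i`, `i ∈ S' \ S`.  Countably many indices: Markushevich's construction.

*Examples.*  `L¹({0,1}^Γ)` has the M-basis of the Walsh functions.  `C(A(Γ)^ℕ)` has the M-basis of the functions
`[p extends σ]`, `σ` a point with finitely many coordinates different from `∞`; the span of its functionals
contains the evaluations at these points.
-/

set_option autoImplicit false

namespace Pool.Agent.Results.MP_38dfb6_an.ClosedSubspaces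

open Pool.Agent.Lib.MP38dfb6 Pool.Agent.Lib.MP38dfb6.HS MeasureTheory Set

universe u v

/-- `E` has an M-basis of characteristic `1`. -/
def HasOne (𝕜 : Type) [RCLike 𝕜] (E : Type) [NormedAddCommGroup E] [NormedSpace 𝕜 E] : Prop :=
  ∃ (J : Type) (x : J → E) (f : J → (E →L[𝕜] 𝕜)), MBasis 𝕜 E x f ∧ charac 𝕜 (cspan 𝕜 f) = 1

/-- Every closed subspace `E ≠ 0` of `X` has an M-basis of characteristic `1`. -/
def SubOne (𝕜 : Type) [RCLike 𝕜] (X : Type) [NormedAddCommGroup X] [NormedSpace 𝕜 X] : Prop :=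
  ∀ E : Submodule 𝕜 X, IsClosed (E : Set X) → Nontrivial E → HasOne 𝕜 E

/-- `h` and `(f i ∘ j)` have the same linear span. -/
def SameSpan (𝕜 : Type) [RCLike 𝕜] {X F : Type u} [NormedAddCommGroup X] [NormedSpace 𝕜 X]
    [NormedAddCommGroup F] [NormedSpace 𝕜 F] (j : F →L[𝕜] X) {ι : Type v} (f : ι → (X →L[𝕜] 𝕜))
    {J : Type u} (h : J → (F →L[𝕜] 𝕜)) : Prop :=
  Submodule.span 𝕜 (range h) = Submodule.span 𝕜 (range fun i => (f i).comp j)

/-- `F`, with the inclusion `j` into `X`, has an M-basis whose functionals have the same linear span as the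
`f i ∘ j`; its characteristic is at least that of `[f i]` (if `F ≠ 0`). -/
def Restr (𝕜 : Type) [RCLike 𝕜] {X : Type u} [NormedAddCommGroup X] [NormedSpace 𝕜 X] {ι : Type v}
    (f : ι → (X →L[𝕜] 𝕜)) (F : Type u) [NormedAddCommGroup F] [NormedSpace 𝕜 F] (j : F →L[𝕜] X) : Prop :=
  ∃ (J : Type u) (z : J → F) (h : J → (F →L[𝕜] 𝕜)), MBasis 𝕜 F z h ∧ SameSpan 𝕜 j f h ∧
    (Nontrivial F → charac 𝕜 (cspan 𝕜 f) ≤ charac 𝕜 (cspan 𝕜 h))

/-- every functional on `X` vanishes at all but countably many `x i` -/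
def Countably (𝕜 : Type) [RCLike 𝕜] {X : Type u} [NormedAddCommGroup X] [NormedSpace 𝕜 X] {ι : Type v}
    (x : ι → X) : Prop :=
  ∀ ψ : X →L[𝕜] 𝕜, {i | ψ (x i) ≠ 0}.Countable

/-- The heredity theorem for the space `X`, the vectors `x` and the functionals `f`. -/
def Heredity (𝕜 : Type) [RCLike 𝕜] (X : Type u) [NormedAddCommGroup X] [NormedSpace 𝕜 X] (ι : Type v) : Prop :=
  ∀ (x : ι → X) (f : ι → (X →L[𝕜] 𝕜)), MBasis 𝕜 X x f → 0 < charac 𝕜 (cspan 𝕜 f) →
    (WCG 𝕜 X ∨ Countably 𝕜 x) → ∀ E : Submodule 𝕜 X, IsClosed (E : Set X) → Restr 𝕜 f E E.subtypeL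

/-- the subspace theorem inside one space -/
theorem ind : SpecIND.{u, v} :=
  specIND specTHE specCHA specBLK (specDEC specPRJ) specGLU (specBSE specMRK)

/-- closed subspaces of `C(A(Γ)^ℕ)` -/
theorem qsb : SpecQSB :=
  specQSB (specQCH specQCL specQMB specQSW specQDN) (specQHG specQCL specQSW) specQHW
    (specSUB ind) specCSW specUP1

/-- Let `𝕜` be `ℝ` or `ℂ`.
(1) Let `X` be a Banach space with an M-basis `(x_i, f_i)` of positive characteristic, and suppose that `X` is
weakly compactly generated or, more generally, that every functional on `X` vanishes at all but countably many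
`x_i`.  Then every closed subspace `E` of `X` has an M-basis `(z_j, h_j)` such that the linear span of the `h_j` is
the linear span of the restrictions of the `f_i` to `E`; its characteristic is at least that of `(x_i, f_i)`.
(2) For every set `Γ`, every closed subspace `E ≠ 0` of `L¹({0,1}^Γ)` (product of fair coins) has an M-basis of
characteristic `1`.
(3) For every set `Γ`, the space `C(A(Γ)^ℕ)` is Hilbert generated and weakly compactly generated, and every closed
subspace `E ≠ 0` of it has an M-basis of characteristic `1`.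
(4) If `K` is a continuous image of some `A(Γ)^ℕ` (Hausdorff) then `C(K)` has an M-basis of characteristic `1`. -/
theorem result (𝕜 : Type) [RCLike 𝕜] :
    (∀ (X : Type u) [NormedAddCommGroup X] [NormedSpace 𝕜 X] [CompleteSpace X] (ι : Type v),
      Heredity 𝕜 X ι) ∧
    (∀ Γ : Type, SubOne 𝕜 (Lp 𝕜 1 (mu Γ))) ∧
    (∀ Γ : Type, HG 𝕜 C(AN Γ, 𝕜) ∧ WCG 𝕜 C(AN Γ, 𝕜) ∧ SubOne 𝕜 C(AN Γ, 𝕜)) ∧
    ∀ (Γ : Type) (K : Type) [TopologicalSpace K] [CompactSpace K] [T2Space K] (θ : C(AN Γ, K)),
      Function.Surjective θ → HasOne 𝕜 C(K, 𝕜) := by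
  refine ⟨?_, ?_, ?_, ?_⟩
  · intro X _ _ _ ι x f hb hc hw E hE
    have hs : CSup 𝕜 x := by
      rcases hw with hw | hw
      · exact specCSW 𝕜 X ι x f hw hb
      · exact hw
    exact specSUB ind 𝕜 X ι x f hb hc hs E hE
  · exact specCOR (specSUB ind) (specWMB specWLP specWCY specWDN) (specWCS specWLP) specUP1 𝕜
  · intro Γ
    have h := specQHG specQCL specQSW 𝕜 Γ
    exact ⟨h, specQHW 𝕜 _ h, qsb 𝕜 Γ⟩
  · intro Γ K _ _ _ θ hθ
    exact specQIM qsb specQTR 𝕜 Γ K θ hθ

end Pool.Agent.Results.MP_38dfb6_an.ClosedSubspaces
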