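import Pool.Agent.Lib.MP_38dfb6_an.HS.QCL
import Pool.Agent.Lib.MP_38dfb6_an.HS.QMB
import Pool.Agent.Lib.MP_38dfb6_an.HS.QSW
import Pool.Agent.Lib.MP_38dfb6_an.HS.QDN
import Pool.Agent.Lib.MP_38dfb6_an.HS.QCH
import Pool.Agent.Lib.MP_38dfb6_an.HS.QHG
import Pool.Agent.Lib.MP_38dfb6_an.HS.QHW
import Pool.Agent.Lib.MP_38dfb6_an.HS.QEM
import Pool.Agent.Lib.MP_38dfb6_an.HS.QTI
import Pool.Agent.Lib.MP_38dfb6_an.HS.QNO
import Pool.Agent.Lib.MP_38dfb6_an.HS.TPI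
import Pool.Agent.Lib.MP_38dfb6_an.HS.TES
import Pool.Agent.Lib.MP_38dfb6_an.HS.TSU
import Pool.Agent.Lib.MP_38dfb6_an.HS.TYB
import Pool.Agent.Lib.MP_38dfb6_an.HS.TZB
import Pool.Agent.Lib.MP_38dfb6_an.HS.TYH
import Pool.Agent.Lib.MP_38dfb6_an.NB.LAM
import Pool.Agent.Lib.MP_38dfb6_an.NB.UNQ
import Pool.Agent.Lib.MP_38dfb6_an.NB.CHN
import Pool.Agent.Lib.MP_38dfb6_an.NB.CLS
import Pool.Agent.Lib.MP_38dfb6_an.NB.CNT
import Pool.Agent.Lib.MP_38dfb6_an.NB.CLO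
import Pool.Agent.Lib.MP_38dfb6_an.NB.KIL
import Pool.Agent.Lib.MP_38dfb6_an.NB.TST
import Pool.Agent.Lib.MP_38dfb6_an.NB.UPP
import Pool.Agent.Lib.MP_38dfb6_an.NB.NNG
import Pool.Agent.Lib.MP_38dfb6_an.NB.KTR
import Pool.Agent.Lib.MP_38dfb6_an.NB.KSP
import Pool.Agent.Lib.MP_38dfb6_an.NB.KIS

/-!
# Norming M-bases, quotients and extensions

Let `K` be the compact space of all paths of the ladder tree (see `AllCharacteristics`).  The tree is the union
of countably many antichains, so `K` is (homeomorphic to) a closed subset of `A(Γ)^ℕ`, `Γ` the set of the nodes,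
`A(Γ)` the one-point compactification of the discrete set `Γ`.  No M-basis of `C(K)` is norming.

*Quotients.*  `C(A(Γ)^ℕ)` has the M-basis of the functions `[p extends σ]`, `σ` a point with finitely many
coordinates different from `∞`; the span of its functionals contains the evaluations at these points.

*Extensions.*  Let `Y ⊆ C(K)` be the closed linear span of the functions `χ_(D, ())` (the tree of all finite
sequences `D` has height `ω`).  The map `x ↦ (x (D, a) - x (D, ()))_(D, a)` is a quotient map of `C(K)` onto a space of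
functions on the disjoint union of trees of height `ω`, with kernel `Y`: if `x` is in the span of the `χ_s` and
`|x (D, a) - x (D, ())| ≤ C` for all `D`, `a`, then `‖x + y‖ ≤ C` for some `y ∈ Y`.
-/

set_option autoImplicit false

namespace Pool.Agent.Results.MP_38dfb6_an.QuotientsExtensions

open Pool.Agent.Lib.MP38dfb6 Pool.Agent.Lib.MP38dfb6.HS Set

universe v

/-- `E` has an M-basis of characteristic `1`. -/
def HasOne (𝕜 : Type) [RCLike 𝕜] (E : Type) [NormedAddCommGroup E] [NormedSpace 𝕜 E] : Prop :=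
  ∃ (J : Type) (x : J → E) (f : J → (E →L[𝕜] 𝕜)), MBasis 𝕜 E x f ∧ charac 𝕜 (cspan 𝕜 f) = 1

/-- No M-basis of `E` is norming: all have characteristic `0`. -/
def NoNorming (𝕜 : Type) [RCLike 𝕜] (E : Type) [NormedAddCommGroup E] [NormedSpace 𝕜 E] : Prop :=
  ∀ (ι : Type v) (x : ι → E) (f : ι → (E →L[𝕜] 𝕜)), MBasis 𝕜 E x f → charac 𝕜 (cspan 𝕜 f) = 0

/-- `E` is Hilbert generated and weakly compactly generated and has an M-basis of characteristic `1`. -/
def Good (𝕜 : Type) [RCLike 𝕜] (E : Type) [NormedAddCommGroup E] [NormedSpace 𝕜 E] : Prop :=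
  HG 𝕜 E ∧ WCG 𝕜 E ∧ HasOne 𝕜 E

/-- `F` is a quotient of `E`: there is a bounded linear surjection. -/
def Onto (𝕜 : Type) [RCLike 𝕜] (E F : Type) [NormedAddCommGroup E] [NormedSpace 𝕜 E] [NormedAddCommGroup F]
    [NormedSpace 𝕜 F] : Prop :=
  ∃ q : E →L[𝕜] F, Function.Surjective q

/-- `0 → Y → E → Z → 0`: a linear isometry `j : Y → E` and a bounded linear surjection `π : E → Z`, the kernel of
`π` is the range of `j`. -/
def Exact (𝕜 : Type) [RCLike 𝕜] (Y E Z : Type) [NormedAddCommGroup Y] [NormedSpace 𝕜 Y] [NormedAddCommGroup E]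
    [NormedSpace 𝕜 E] [NormedAddCommGroup Z] [NormedSpace 𝕜 Z] : Prop :=
  ∃ (j : Y →ₗᵢ[𝕜] E) (π : E →L[𝕜] Z), Function.Surjective π ∧ ∀ g, π g = 0 ↔ ∃ y, j y = g

/-- `E` is an extension of two Banach spaces which are `Good`. -/
def IsExt (𝕜 : Type) [RCLike 𝕜] (E : Type) [NormedAddCommGroup E] [NormedSpace 𝕜 E] : Prop :=
  ∃ (Y : Type) (_ : NormedAddCommGroup Y) (_ : NormedSpace 𝕜 Y) (_ : CompleteSpace Y)
    (Z : Type) (_ : NormedAddCommGroup Z) (_ : NormedSpace 𝕜 Z) (_ : CompleteSpace Z),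
    Exact 𝕜 Y E Z ∧ Good 𝕜 Y ∧ Good 𝕜 Z

/-- the number of nodes -/
theorem mk_node {Λ : Type} (h : Cardinal.mk Λ ≤ Cardinal.aleph 1) :
    Cardinal.mk (Node Λ) ≤ Cardinal.aleph 1 := by
  have h0 : Cardinal.aleph0 ≤ Cardinal.aleph 1 := Cardinal.aleph0_le_aleph 1
  have h1 : Cardinal.mk (List Λ) ≤ Cardinal.aleph 1 :=
    (Cardinal.mk_list_le_max Λ).trans (max_le h0 h)
  rw [Cardinal.mk_prod, Cardinal.lift_id]
  exact (mul_le_mul' h1 h1).trans (Cardinal.mul_eq_self h0).le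

theorem YS_le {𝕜 : Type} [RCLike 𝕜] {Λ : Type} (L : Λ → ℕ → Λ) : YS 𝕜 L ≤ ES 𝕜 L ⊤ := by
  unfold YS ES
  apply Submodule.topologicalClosure_mono
  apply Submodule.span_mono
  rintro _ ⟨D, rfl⟩
  exact ⟨(D, []), rfl⟩

/-- Let `𝕜` be `ℝ` or `ℂ`.  There are a set `Γ` of at most `ℵ₁` elements and a compact Hausdorff space `K` such that `C(K)` is
Hilbert generated and weakly compactly generated, no M-basis of `C(K)` is norming (they have characteristic `0`), and: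
(1) *quotients*: there is a bounded linear surjection `q : C(A(Γ)^ℕ) → C(K)`, where `C(A(Γ)^ℕ)` is Hilbert generated
and weakly compactly generated and has an M-basis of characteristic `1`;
(2) *extensions*: there are Hilbert generated and weakly compactly generated Banach spaces `Y` and `Z` with M-bases of
characteristic `1`, a linear isometry `j : Y → C(K)` and a bounded linear surjection `π : C(K) → Z`, such that the
kernel of `π` is the range of `j`. -/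
theorem result (𝕜 : Type) [RCLike 𝕜] :
    ∃ (Γ : Type) (K : Type) (_ : TopologicalSpace K) (_ : CompactSpace K) (_ : T2Space K),
      Cardinal.mk Γ ≤ Cardinal.aleph 1 ∧ HG 𝕜 C(K, 𝕜) ∧ WCG 𝕜 C(K, 𝕜) ∧
      NoNorming.{v} 𝕜 C(K, 𝕜) ∧ (Onto 𝕜 C(AN Γ, 𝕜) C(K, 𝕜) ∧ Good 𝕜 C(AN Γ, 𝕜)) ∧
      IsExt 𝕜 C(K, 𝕜) := by
  obtain ⟨Λ, _, L, hL, hcard⟩ := specLAM
  obtain ⟨q, hq⟩ := specQTI (specQEM specUNQ) 𝕜 Λ L
  have hA : HG 𝕜 C(AN (Node Λ), 𝕜) := specQHG specQCL specQSW 𝕜 (Node Λ)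
  have hg : HG 𝕜 C(KK L ⊤, 𝕜) := by
    obtain ⟨H, i1, i2, i3, T, hT⟩ := hA
    exact ⟨H, i1, i2, i3, q.comp T, hq.denseRange.comp hT q.continuous⟩
  refine ⟨Node Λ, KK L ⊤, inferInstance, inferInstance, inferInstance, mk_node hcard, hg,
    specQHW 𝕜 _ hg, ?_, ⟨⟨q, hq⟩, hA, specQHW 𝕜 _ hA,
      specQCH specQCL specQMB specQSW specQDN 𝕜 (Node Λ)⟩, ?_⟩
  · exact specQNO (specUPP (specKIL (specCNT (specCLS specUNQ)) specCLO) (specTST specCHN))
      specNNG (specKIS (specKSP specKTR specCHN)) 𝕜 Λ L hL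
  · obtain ⟨e⟩ := specKIS (specKSP specKTR specCHN) 𝕜 Λ L ⊤
    obtain ⟨π, hπ, hker⟩ := specTSU specTPI specTES 𝕜 Λ L
    have hne : Nonempty Λ := by
      obtain ⟨b, _⟩ := hL.bdd ∅ countable_empty
      exact ⟨b⟩
    let i : YS 𝕜 L →ₗᵢ[𝕜] ES 𝕜 L ⊤ :=
      ⟨Submodule.inclusion (YS_le L), fun _ => rfl⟩
    have hY : HG 𝕜 (YS 𝕜 L) := specTYH 𝕜 Λ L
    have hs : Function.Surjective
        (π.comp (e.symm.toContinuousLinearEquiv : C(KK L ⊤, 𝕜) →L[𝕜] ES 𝕜 L ⊤)) :=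
      hπ.comp e.symm.surjective
    have hZ : HG 𝕜 (ZS 𝕜 Λ) := by
      obtain ⟨H, i1, i2, i3, T, hT⟩ := hg
      exact ⟨H, i1, i2, i3, (π.comp (e.symm.toContinuousLinearEquiv :
        C(KK L ⊤, 𝕜) →L[𝕜] ES 𝕜 L ⊤)).comp T, hs.denseRange.comp hT (ContinuousLinearMap.continuous _)⟩
    refine ⟨YS 𝕜 L, inferInstance, inferInstance, inferInstance, ZS 𝕜 Λ, inferInstance,
      inferInstance, inferInstance, ⟨e.toLinearIsometry.comp i,
      π.comp (e.symm.toContinuousLinearEquiv : C(KK L ⊤, 𝕜) →L[𝕜] ES 𝕜 L ⊤), hs, ?_⟩,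
      ⟨hY, specQHW 𝕜 _ hY, specTYB 𝕜 Λ L⟩, ⟨hZ, specQHW 𝕜 _ hZ, specTZB 𝕜 Λ⟩⟩
    intro g
    have h1 := hker (e.symm g)
    constructor
    · intro h
      have h2 : (e.symm g).1 ∈ YS 𝕜 L := h1.1 h
      refine ⟨⟨(e.symm g).1, h2⟩, ?_⟩
      have h3 : i ⟨(e.symm g).1, h2⟩ = e.symm g := rfl
      show e (i ⟨(e.symm g).1, h2⟩) = g
      rw [h3]
      exact e.apply_symm_apply g
    · rintro ⟨y, rfl⟩
      have h4 : e.symm (e (i y)) = i y := e.symm_apply_apply (i y)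
      show π (e.symm (e (i y))) = 0
      rw [h4]
      exact (hker (i y)).2 y.2

end Pool.Agent.Results.MP_38dfb6_an.QuotientsExtensions
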