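import Pool.Agent.Lib.MP_38dfb6_an.NB.SpecK
import Pool.Agent.Lib.MP_38dfb6_an.NB.LAM
import Pool.Agent.Lib.MP_38dfb6_an.NB.UNQ
import Pool.Agent.Lib.MP_38dfb6_an.NB.CHN
import Pool.Agent.Lib.MP_38dfb6_an.NB.PRD
import Pool.Agent.Lib.MP_38dfb6_an.NB.CLS
import Pool.Agent.Lib.MP_38dfb6_an.NB.CNT
import Pool.Agent.Lib.MP_38dfb6_an.NB.GEN
import Pool.Agent.Lib.MP_38dfb6_an.NB.WCG
import Pool.Agent.Lib.MP_38dfb6_an.NB.HIL
import Pool.Agent.Lib.MP_38dfb6_an.NB.LIM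
import Pool.Agent.Lib.MP_38dfb6_an.NB.BAS
import Pool.Agent.Lib.MP_38dfb6_an.NB.LOW
import Pool.Agent.Lib.MP_38dfb6_an.NB.TST
import Pool.Agent.Lib.MP_38dfb6_an.NB.CRD
import Pool.Agent.Lib.MP_38dfb6_an.NB.NNG
import Pool.Agent.Lib.MP_38dfb6_an.NB.KTR
import Pool.Agent.Lib.MP_38dfb6_an.NB.KSP
import Pool.Agent.Lib.MP_38dfb6_an.NB.KIS
import Pool.Agent.Lib.MP_38dfb6_an.HS.SLA
import Pool.Agent.Lib.MP_38dfb6_an.HS.SCA
import Pool.Agent.Lib.MP_38dfb6_an.HS.SCO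
import Pool.Agent.Lib.MP_38dfb6_an.HS.SKI
import Pool.Agent.Lib.MP_38dfb6_an.HS.SUP
import Pool.Agent.Lib.MP_38dfb6_an.HS.SSE
import Pool.Agent.Lib.MP_38dfb6_an.HS.PBO
import Pool.Agent.Lib.MP_38dfb6_an.HS.PMB
import Pool.Agent.Lib.MP_38dfb6_an.HS.SCT
import Pool.Agent.Lib.MP_38dfb6_an.HS.SDE
import Pool.Agent.Lib.MP_38dfb6_an.HS.SNE
import Pool.Agent.Lib.MP_38dfb6_an.HS.SCI
import Pool.Agent.Lib.MP_38dfb6_an.HS.SUL
import Pool.Agent.Lib.MP_38dfb6_an.HS.QTR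
import Pool.Agent.Lib.MP_38dfb6_an.HS.QHW

/-!
# Stationary sets and norming M-bases

Let `Λ` be a well-order of type `ω₁` and `S ⊆ Λ`.  For `δ ∈ S` let `L δ : ℕ → Λ` be an enumeration of the
elements below `δ`, for `δ ∉ S` let it be constant.  A node is a pair `(D, a)` of finite sequences in `Λ`.  Let
the path of `(D, a)`, `D = (δ_1, ..., δ_m)`, consist of the nodes `((δ_1, ..., δ_j), initial parts of L δ_(j+1))`, `j < m`,
and of the nodes `(D, initial parts of a)`.  This is a tree of height `ω²`, the union of countably many antichains.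
`K(L)` is the closure of the set of all paths in `{0, 1}^(nodes)` (`K_n(L)`: of the paths with at most `n` limit levels), and
`χ_s(k) = k(s)`, `s` a node.  The span of the `χ_s` is dense in `E = C(K(L))`.

*`S` stationary.*  Let `(x_i, f_i)` be an M-basis of a space `X` which contains `E`.  A closing-off argument
gives `δ_1 < ... < δ_n` in `S` such that for every `φ` in the span of the `f_i` and every `k < n` there is a node
`s_k = ((δ_1, ..., δ_k), initial part of L δ_(k+1))` with `φ (χ_(s_k)) = 0`.  With `c_k = ((δ_1, ..., δ_k), ())` the path order is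
`c_0 ≤ s_0 < c_1 ≤ s_1 < ... < c_n`; `g = χ_(c_0) + 2 (χ_(c_1) + ... + χ_(c_n))` has norm `2 n + 1`, and `g - 2 ∑ χ_(s_k)` has
norm `1`, so `|φ g| ≤ ‖φ‖`.

*`S` not stationary.*  There is `i : Λ → ℕ` such that every finite sequence `a` is an initial part, longer than `i δ`, of
finitely many `L δ` only (`δ ∈ G(a)`).  The vectors `χ_(D, a) - ∑_(δ ∈ G(a)) χ_(D δ, ())` form an M-basis, and the
span of its functionals contains the evaluations at the nodes.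

*`S \ S'` stationary, `J : C(K(L)) → C(K(L'))` bounded, `a ‖e‖ ≤ ‖J e‖`.*  Closing-off gives `δ_1 < ... < δ_n` in `S \ S'` such that
for every path `p` of the tree of `S'` and every `k < n` there is `s_k` as above such that `J (χ_(s_k))` vanishes at `p`: since
`δ = δ_(k+1)` is not in `S'`, the part of `p` below `δ` is bounded below `δ`.  So `‖J g‖ ≤ ‖J‖`, `‖g‖ = 2 n + 1`.
By Ulam there are pairwise disjoint stationary sets `T_ξ`, `ξ < ω₁`; for `A ⊆ ω₁` take the union of the `T_ξ`, `ξ ∈ A`.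
-/

set_option autoImplicit false

namespace Pool.Agent.Results.MP_38dfb6_an.StationarySets

open Pool.Agent.Lib.MP38dfb6 Pool.Agent.Lib.MP38dfb6.HS Set

universe u v

/-- `E` is Hilbert generated, weakly compactly generated, and the closed linear span of at most `ℵ₁` vectors. -/
def Nice (𝕜 : Type) [RCLike 𝕜] (E : Type) [NormedAddCommGroup E] [NormedSpace 𝕜 E] : Prop :=
  HG 𝕜 E ∧ WCG 𝕜 E ∧ ∃ G : Set E, Cardinal.mk G ≤ Cardinal.aleph 1 ∧ (Submodule.span 𝕜 G).topologicalClosure = ⊤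

/-- `E` has an M-basis with positive characteristic. -/
def HasNorming (𝕜 : Type) [RCLike 𝕜] (E : Type) [NormedAddCommGroup E] [NormedSpace 𝕜 E] : Prop :=
  ∃ (J : Type) (x : J → E) (f : J → (E →L[𝕜] 𝕜)), MBasis 𝕜 E x f ∧ 0 < charac 𝕜 (cspan 𝕜 f)

/-- `E` has an M-basis of characteristic `1`. -/
def HasOne (𝕜 : Type) [RCLike 𝕜] (E : Type) [NormedAddCommGroup E] [NormedSpace 𝕜 E] : Prop :=
  ∃ (J : Type) (x : J → E) (f : J → (E →L[𝕜] 𝕜)), MBasis 𝕜 E x f ∧ charac 𝕜 (cspan 𝕜 f) = 1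

/-- `E` is isomorphic to a subspace of `X`. -/
def Embeds (𝕜 : Type) [RCLike 𝕜] (E : Type) (X : Type u) [NormedAddCommGroup E] [NormedSpace 𝕜 E]
    [NormedAddCommGroup X] [NormedSpace 𝕜 X] : Prop :=
  ∃ (J : E →L[𝕜] X) (a : ℝ), 0 < a ∧ ∀ e, a * ‖e‖ ≤ ‖J e‖

/-- No normed space `X` which contains an isomorphic copy of `E` has a norming M-basis: all M-bases of `X` have
characteristic `0`. -/
def NoNorming (𝕜 : Type) [RCLike 𝕜] (E : Type) [NormedAddCommGroup E] [NormedSpace 𝕜 E] : Prop :=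
  ∀ (X : Type u) [NormedAddCommGroup X] [NormedSpace 𝕜 X], Embeds 𝕜 E X →
    ∀ (ι : Type v) (x : ι → X) (f : ι → (X →L[𝕜] 𝕜)), MBasis 𝕜 X x f → charac 𝕜 (cspan 𝕜 f) = 0

/-- The M-bases of `E` have characteristic at most `r`, and this value is attained; and for every bounded
linear map `J` from `E` to a normed space `X` with `a ‖e‖ ≤ ‖J e‖` for all `e` (`a > 0`) the M-bases of `X` have
characteristic at most `r ‖J‖ / a`. -/
def Best (𝕜 : Type) [RCLike 𝕜] (E : Type) [NormedAddCommGroup E] [NormedSpace 𝕜 E] (r : ℝ) : Prop :=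
  (∃ (ι : Type) (x : ι → E) (f : ι → (E →L[𝕜] 𝕜)), MBasis 𝕜 E x f ∧ charac 𝕜 (cspan 𝕜 f) = r) ∧
  (∀ (ι : Type v) (x : ι → E) (f : ι → (E →L[𝕜] 𝕜)), MBasis 𝕜 E x f → charac 𝕜 (cspan 𝕜 f) ≤ r) ∧
  ∀ (X : Type u) (_ : NormedAddCommGroup X) (_ : NormedSpace 𝕜 X) (J : E →L[𝕜] X) (a : ℝ),
    0 < a → (∀ e, a * ‖e‖ ≤ ‖J e‖) →
    ∀ (ι : Type v) (x : ι → X) (f : ι → (X →L[𝕜] 𝕜)), MBasis 𝕜 X x f →
      charac 𝕜 (cspan 𝕜 f) ≤ r * (‖J‖ / a)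

/-- The dichotomy for the set `S` and the ladders `L`. -/
def Dichotomy (𝕜 : Type) [RCLike 𝕜] {Λ : Type} [LinearOrder Λ] (S : Set Λ) (L : Λ → ℕ → Λ) : Prop :=
  (∀ N : ℕ∞, Nice 𝕜 C(KK L N, 𝕜)) ∧
  (HasNorming 𝕜 C(KK L ⊤, 𝕜) ↔ ¬ Stat S) ∧
  (Stat S → NoNorming.{u, v} 𝕜 C(KK L ⊤, 𝕜) ∧ ∀ n : ℕ, Best.{u, v} 𝕜 C(KK L n, 𝕜) (1 / (2 * n + 1))) ∧
  (¬ Stat S → ∀ N : ℕ∞, HasOne 𝕜 C(KK L N, 𝕜))

theorem zero_of (c K a : ℝ) (h0 : 0 ≤ c) (ha : 0 < a)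
    (h : ∀ n : ℕ, c ≤ K / (a * (2 * n + 1))) : c = 0 := by
  by_contra hc
  have hc' : 0 < c := lt_of_le_of_ne h0 (Ne.symm hc)
  obtain ⟨n, hn⟩ := exists_nat_gt (K / (c * a))
  have h1 := h n
  have hp : 0 < a * (2 * (n : ℝ) + 1) := by positivity
  rw [le_div_iff₀ hp] at h1
  rw [div_lt_iff₀ (by positivity)] at hn
  have hn0 : (0 : ℝ) ≤ n := Nat.cast_nonneg n
  have h2 : (n : ℝ) * (c * a) ≤ c * (a * (2 * n + 1)) := by
    have : c * (a * (2 * n + 1)) = (2 * n + 1) * (c * a) := by ring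
    rw [this]
    exact mul_le_mul_of_nonneg_right (by linarith) (by positivity)
  linarith

/-- the number of nodes -/
theorem mk_node {Λ : Type} (h : Cardinal.mk Λ ≤ Cardinal.aleph 1) :
    Cardinal.mk (Node Λ) ≤ Cardinal.aleph 1 := by
  have h0 : Cardinal.aleph0 ≤ Cardinal.aleph 1 := Cardinal.aleph0_le_aleph 1
  have h1 : Cardinal.mk (List Λ) ≤ Cardinal.aleph 1 :=
    (Cardinal.mk_list_le_max Λ).trans (max_le h0 h)
  rw [Cardinal.mk_prod, Cardinal.lift_id]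
  exact (mul_le_mul' h1 h1).trans (Cardinal.mul_eq_self h0).le

/-- the isometry between the space of the tree and `C(K)` -/
theorem iso (𝕜 : Type) [RCLike 𝕜] {Λ : Type} (L : Λ → ℕ → Λ) (N : ℕ∞) :
    Nonempty (ES 𝕜 L N ≃ₗᵢ[𝕜] C(KK L N, 𝕜)) :=
  specKIS (specKSP specKTR specCHN) 𝕜 Λ L N

/-- an embedding of `C(K)` gives an embedding of the space of the tree -/
theorem transfer (𝕜 : Type) [RCLike 𝕜] {Λ : Type} (L : Λ → ℕ → Λ) (N : ℕ∞) {X : Type u}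
    [NormedAddCommGroup X] [NormedSpace 𝕜 X] (J : C(KK L N, 𝕜) →L[𝕜] X) (a : ℝ)
    (hJ : ∀ e, a * ‖e‖ ≤ ‖J e‖) :
    ∃ J' : ES 𝕜 L N →L[𝕜] X, (∀ e, a * ‖e‖ ≤ ‖J' e‖) ∧ ‖J'‖ ≤ ‖J‖ := by
  obtain ⟨e⟩ := iso 𝕜 L N
  refine ⟨J.comp (e.toContinuousLinearEquiv : ES 𝕜 L N →L[𝕜] C(KK L N, 𝕜)), ?_, ?_⟩
  · intro x
    have h := hJ (e x)
    rw [e.norm_map] at h
    exact h
  · refine ContinuousLinearMap.opNorm_le_bound _ (norm_nonneg _) (fun x => ?_)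
    have h := J.le_opNorm (e x)
    rw [e.norm_map] at h
    exact h

theorem nice (𝕜 : Type) [RCLike 𝕜] {Λ : Type} [LinearOrder Λ] (hΛ : Om1 Λ) (L : Λ → ℕ → Λ) (N : ℕ∞) :
    Nice 𝕜 C(KK L N, 𝕜) := by
  have hg : HG 𝕜 C(KK L N, 𝕜) := by
    obtain ⟨e⟩ := iso 𝕜 L N
    obtain ⟨H, i1, i2, i3, T, hT⟩ := specHIL specUNQ specGEN 𝕜 Λ L N
    exact ⟨H, i1, i2, i3, (e.toContinuousLinearEquiv : ES 𝕜 L N →L[𝕜] C(KK L N, 𝕜)).comp T,
      e.surjective.denseRange.comp hT e.continuous⟩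
  refine ⟨hg, specQHW 𝕜 _ hg, range (gk 𝕜 L N), ?_, specKSP specKTR specCHN 𝕜 Λ L N⟩
  exact Cardinal.mk_range_le.trans (mk_node (specSCA Λ hΛ))

theorem upper (𝕜 : Type) [RCLike 𝕜] {Λ : Type} [LinearOrder Λ] (hΛ : Om1 Λ) {S : Set Λ}
    {L : Λ → ℕ → Λ} (hL : LadS S L) (hS : Stat S) (N : ℕ∞) (X : Type u)
    [NormedAddCommGroup X] [NormedSpace 𝕜 X] (J : C(KK L N, 𝕜) →L[𝕜] X) (a : ℝ) (ha : 0 < a)
    (hJ : ∀ e, a * ‖e‖ ≤ ‖J e‖) (ι : Type v) (x : ι → X) (f : ι → (X →L[𝕜] 𝕜))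
    (hB : MBasis 𝕜 X x f) (n : ℕ) (hn : ((n : ℕ) : ℕ∞) ≤ N) :
    charac 𝕜 (cspan 𝕜 f) ≤ ‖J‖ / (a * (2 * n + 1)) := by
  obtain ⟨J', h1, h2⟩ := transfer 𝕜 L N J a hJ
  refine (specSUP (specSKI (specCNT (specCLS specUNQ)) specSCO) (specTST specCHN) 𝕜 Λ S L N hΛ
    hL hS X J' a ha h1 ι x f hB n hn).trans ?_
  exact div_le_div_of_nonneg_right h2 (by positivity)

theorem none (𝕜 : Type) [RCLike 𝕜] {Λ : Type} [LinearOrder Λ] (hΛ : Om1 Λ) {S : Set Λ}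
    {L : Λ → ℕ → Λ} (hL : LadS S L) (hS : Stat S) : NoNorming.{u, v} 𝕜 C(KK L ⊤, 𝕜) := by
  rintro X _ _ ⟨J, a, ha, hJ⟩ ι x f hB
  refine zero_of _ ‖J‖ a (specNNG 𝕜 _ _) ha ?_
  intro n
  exact upper 𝕜 hΛ hL hS ⊤ X J a ha hJ ι x f hB n le_top

theorem id_embeds (𝕜 : Type) [RCLike 𝕜] (E : Type) [NormedAddCommGroup E] [NormedSpace 𝕜 E] :
    Embeds 𝕜 E E :=
  ⟨ContinuousLinearMap.id 𝕜 E, 1, one_pos, fun e => by rw [one_mul]; exact le_refl _⟩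

theorem best (𝕜 : Type) [RCLike 𝕜] {Λ : Type} [LinearOrder Λ] (hΛ : Om1 Λ) {S : Set Λ}
    {L : Λ → ℕ → Λ} (hL : LadS S L) (hS : Stat S) (n : ℕ) :
    Best.{u, v} 𝕜 C(KK L n, 𝕜) (1 / (2 * n + 1)) := by
  have hup : ∀ (ι : Type v) (x : ι → C(KK L n, 𝕜)) (f : ι → (C(KK L n, 𝕜) →L[𝕜] 𝕜)),
      MBasis 𝕜 C(KK L n, 𝕜) x f → charac 𝕜 (cspan 𝕜 f) ≤ 1 / (2 * n + 1) := by
    intro ι x f hB
    refine (upper 𝕜 hΛ hL hS (n : ℕ∞) C(KK L n, 𝕜) (ContinuousLinearMap.id 𝕜 _) 1 one_pos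
      (fun e => by rw [one_mul]; exact le_refl _) ι x f hB n le_rfl).trans ?_
    rw [one_mul]
    exact div_le_div_of_nonneg_right ContinuousLinearMap.norm_id_le (by positivity)
  refine ⟨?_, hup, ?_⟩
  · obtain ⟨e⟩ := iso 𝕜 L (n : ℕ∞)
    obtain ⟨x, f, hB, hc⟩ := specQTR 𝕜 (ES 𝕜 L (n : ℕ∞)) C(KK L n, 𝕜) e (NN Λ (n : ℕ∞)) _ _
      (specBAS specPRD specGEN specLIM 𝕜 Λ L n)
    refine ⟨NN Λ (n : ℕ∞), x, f, hB, ?_⟩
    have hlow := specLOW specLIM 𝕜 Λ L n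
    have hup0 : charac 𝕜 (cspan 𝕜 f) ≤ 1 / (2 * n + 1) := by
      refine (upper 𝕜 hΛ hL hS (n : ℕ∞) C(KK L n, 𝕜) (ContinuousLinearMap.id 𝕜 _) 1 one_pos
        (fun e => by rw [one_mul]; exact le_refl _) _ x f hB n le_rfl).trans ?_
      rw [one_mul]
      exact div_le_div_of_nonneg_right ContinuousLinearMap.norm_id_le (by positivity)
    refine le_antisymm hup0 ?_
    rw [hc]
    exact hlow
  · intro X _ _ J a ha hJ ι x f hB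
    have h8 := upper 𝕜 hΛ hL hS (n : ℕ∞) X J a ha hJ ι x f hB n le_rfl
    have h9 : ‖J‖ / (a * (2 * n + 1)) = 1 / (2 * n + 1) * (‖J‖ / a) := by
      rw [div_mul_div_comm, one_mul, mul_comm a]
    rw [h9] at h8
    exact h8

theorem one (𝕜 : Type) [RCLike 𝕜] {Λ : Type} [LinearOrder Λ] (hΛ : Om1 Λ) {S : Set Λ}
    {L : Λ → ℕ → Λ} (hL : LadS S L) (hS : ¬ Stat S) (N : ℕ∞) : HasOne 𝕜 C(KK L N, 𝕜) := by
  obtain ⟨i, hi⟩ := specSSE Λ hΛ S hS L hL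
  obtain ⟨ι, x, f, hB, h1⟩ := specPMB specPBO specGEN specLIM 𝕜 Λ L N i hi
  obtain ⟨e⟩ := iso 𝕜 L N
  obtain ⟨x', f', hB', hc⟩ := specQTR 𝕜 (ES 𝕜 L N) C(KK L N, 𝕜) e ι x f hB
  exact ⟨ι, x', f', hB', hc.trans h1⟩

theorem dichotomy (𝕜 : Type) [RCLike 𝕜] {Λ : Type} [LinearOrder Λ] (hΛ : Om1 Λ) {S : Set Λ}
    {L : Λ → ℕ → Λ} (hL : LadS S L) : Dichotomy.{u, v} 𝕜 S L := by
  refine ⟨nice 𝕜 hΛ L, ⟨?_, ?_⟩, fun hS => ⟨none 𝕜 hΛ hL hS, best 𝕜 hΛ hL hS⟩, one 𝕜 hΛ hL⟩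
  · rintro ⟨J, x, f, hB, hpos⟩ hS
    have h := none.{0, 0} 𝕜 hΛ hL hS C(KK L ⊤, 𝕜) (id_embeds 𝕜 _) J x f hB
    rw [h] at hpos
    exact lt_irrefl _ hpos
  · intro hS
    obtain ⟨J, x, f, hB, h1⟩ := one 𝕜 hΛ hL hS ⊤
    exact ⟨J, x, f, hB, by rw [h1]; exact one_pos⟩

theorem apart (𝕜 : Type) [RCLike 𝕜] {Λ : Type} [LinearOrder Λ] (hΛ : Om1 Λ) {S S' : Set Λ}
    {L L' : Λ → ℕ → Λ} (hL : LadS S L) (hL' : LadS S' L') (h : Stat (S \ S')) :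
    ¬ Embeds 𝕜 C(KK L ⊤, 𝕜) C(KK L' ⊤, 𝕜) := by
  rintro ⟨J, a, ha, hJ⟩
  obtain ⟨e'⟩ := iso 𝕜 L' ⊤
  obtain ⟨J', h1, _⟩ := transfer 𝕜 L ⊤ J a hJ
  refine specSNE (specSDE (specCNT (specCLS specUNQ)) specGEN specSCO specSCT) (specTST specCHN)
    𝕜 Λ S S' L L' hΛ hL hL' h
    ((e'.symm.toContinuousLinearEquiv : C(KK L' ⊤, 𝕜) →L[𝕜] ES 𝕜 L' ⊤).comp J') a ha ?_
  intro x
  have h2 : ‖e'.symm (J' x)‖ = ‖J' x‖ := e'.symm.norm_map _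
  show a * ‖x‖ ≤ ‖e'.symm (J' x)‖
  rw [h2]
  exact h1 x

/-- Let `𝕜` be `ℝ` or `ℂ`.  There is a well-order of type `ω₁` (in the sense of `Om1`).  Let `Λ` be any such well-order.
(1) For every `S ⊆ Λ` there are ladders `L` on `S` (`L δ` enumerates the elements below `δ` for `δ ∈ S`, and is constant
otherwise).
(2) For every `S ⊆ Λ` and all ladders `L` on `S` the spaces `C(KK L N)` are Hilbert generated, weakly compactly generated,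
generated by at most `ℵ₁` vectors, and: `C(KK L ⊤)` has a norming M-basis if and only if `S` is not stationary.
If `S` is stationary, then no M-basis of a normed space which contains an isomorphic copy of `C(KK L ⊤)` is norming, and the
best characteristic of the M-bases of `C(KK L n)` (in the sense of `Best`) is `1 / (2 n + 1)`; if `S` is not stationary, then all
`C(KK L N)` have M-bases of characteristic `1`.
(3) If `S \ S'` is stationary, and `L`, `L'` are ladders on `S`, `S'`, then `C(KK L ⊤)` is not isomorphic to a subspace of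
`C(KK L' ⊤)`.
(4) There are ladders `M A` on sets `W A`, `A ⊆ Λ`, such that for `A ≠ ∅` the set `W A` is stationary and no M-basis of a normed
space which contains an isomorphic copy of `C(KK (M A) ⊤)` is norming, and such that `C(KK (M A) ⊤)` is isomorphic to a
subspace of `C(KK (M B) ⊤)` only if `A ⊆ B`. -/
theorem result (𝕜 : Type) [RCLike 𝕜] :
    (∃ (Λ : Type) (_ : LinearOrder Λ), Om1 Λ) ∧
    ∀ (Λ : Type) [LinearOrder Λ], Om1 Λ →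
      (∀ S : Set Λ, ∃ L : Λ → ℕ → Λ, LadS S L) ∧
      (∀ (S : Set Λ) (L : Λ → ℕ → Λ), LadS S L → Dichotomy.{u, v} 𝕜 S L) ∧
      (∀ (S S' : Set Λ) (L L' : Λ → ℕ → Λ), LadS S L → LadS S' L' → Stat (S \ S') →
        ¬ Embeds 𝕜 C(KK L ⊤, 𝕜) C(KK L' ⊤, 𝕜)) ∧
      ∃ (W : Set Λ → Set Λ) (M : Set Λ → Λ → ℕ → Λ), (∀ A, LadS (W A) (M A)) ∧
        (∀ A, A.Nonempty → Stat (W A) ∧ NoNorming.{u, v} 𝕜 C(KK (M A) ⊤, 𝕜)) ∧
        ∀ A B, Embeds 𝕜 C(KK (M A) ⊤, 𝕜) C(KK (M B) ⊤, 𝕜) → A ⊆ B := by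
  refine ⟨?_, ?_⟩
  · obtain ⟨Λ, i, L, hL, _⟩ := specLAM
    exact ⟨Λ, i, hL.wf, hL.bdd, hL.cnt⟩
  · intro Λ _ hΛ
    refine ⟨specSLA Λ hΛ, fun S L hL => dichotomy 𝕜 hΛ hL,
      fun S S' L L' hL hL' h => apart 𝕜 hΛ hL hL' h, ?_⟩
    choose L hL using specSLA Λ hΛ
    obtain ⟨T, hT, hd⟩ := specSUL specSCI specSCA Λ hΛ
    have hmono : ∀ S S' : Set Λ, S ⊆ S' → Stat S → Stat S' := by
      intro S S' h hS C hC
      obtain ⟨x, h1, h2⟩ := hS C hC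
      exact ⟨x, h h1, h2⟩
    refine ⟨fun A => ⋃ ξ ∈ A, T ξ, fun A => L (⋃ ξ ∈ A, T ξ), fun A => hL _, ?_, ?_⟩
    · rintro A ⟨ξ, hξ⟩
      have hs : Stat (⋃ ξ ∈ A, T ξ) := hmono (T ξ) _ (subset_biUnion_of_mem hξ) (hT ξ)
      exact ⟨hs, none 𝕜 hΛ (hL _) hs⟩
    · intro A B hE
      by_contra hAB
      obtain ⟨ξ, hξA, hξB⟩ := not_subset.1 hAB
      refine apart 𝕜 hΛ (hL (⋃ ξ ∈ A, T ξ)) (hL (⋃ ξ ∈ B, T ξ)) (hmono (T ξ) _ ?_ (hT ξ)) hE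
      intro x hx
      refine ⟨mem_biUnion hξA hx, ?_⟩
      intro hx'
      obtain ⟨η, hη, hxη⟩ := mem_iUnion₂.1 hx'
      have hne : ξ ≠ η := fun h => hξB (h ▸ hη)
      exact (Set.disjoint_left.1 (hd ξ η hne)) hx hxη

end Pool.Agent.Results.MP_38dfb6_an.StationarySets
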